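import Pool.Agent.Y580.D7

/-!
# The principles WF^x_{sk} do not imply the dual Cantor-Bernstein theorem

There is a model of ZF in which all eight principles WF^i_{sk} and WF^s_{sk} (k = 1, 2, 3, 4) hold
and CSB* fails. The first half of the theorem is proved outright, the second half gives such a
model from every model of ZF in which every set has a well-order.
-/

namespace Pool.Agent.Results.MP_831107_lc.EightTriples

open FirstOrder FirstOrder.Language
open Pool.Agent.Helper672.Plain (LSet)
open Pool.Agent.H635Amen (ZF)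
open Pool.Agent.H310NAS (WO)
open Pool.Agent.Y580S (WF1 WF2 WF3 WF4 IS CSBstar)

universe u

theorem result :
    (∃ (N : Type 1) (_ : LSet.Structure N), ZF N ∧
      (∀ x : IS, WF1 x .s N ∧ WF2 x .s N ∧ WF3 x .s N ∧ WF4 x .s N) ∧ ¬ CSBstar N) ∧
    ∀ (M : Type u) [LSet.Structure M], ZF M → WO M →
      ∃ (N : Type u) (_ : LSet.Structure N), ZF N ∧
        (∀ x : IS, WF1 x .s N ∧ WF2 x .s N ∧ WF3 x .s N ∧ WF4 x .s N) ∧ ¬ CSBstar N := by
  constructor
  · obtain ⟨N, i, h1, h2, h3, -⟩ := Pool.Agent.Y580.exists_modelD_zs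
    exact ⟨N, i, h1, h2, h3⟩
  · intro M _ h hW
    obtain ⟨N, i, h1, h2, h3, -⟩ := Pool.Agent.Y580.exists_modelD M h hW
    exact ⟨N, i, h1, h2, h3⟩

end Pool.Agent.Results.MP_831107_lc.EightTriples
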